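import Pool.Agent.N848.LT.Stm
import Pool.Agent.Y944.LC.TA

/-!
# Project LT, job TAT: Leopoldt's conjecture at 2 implies that units close to 1 are 2^n-th powers
-/

set_option autoImplicit false

namespace Pool.Agent.N371.LT

open Finset NumberField NumberField.Units Filter Topology Pool.Agent.H637R2.Leo Pool.Agent.Y944.LC

lemma frob {R : Type} [CommRing R] (x : R) (s : ℕ) :
    (2 : R) ∣ (x - 1) ^ 2 ^ s - (x ^ 2 ^ s - 1) := by
  induction s with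
  | zero => simp
  | succ s ih =>
    obtain ⟨c, hc⟩ := ih
    have h1 : (x - 1) ^ 2 ^ s = (x ^ 2 ^ s - 1) + 2 * c := by linear_combination hc
    refine ⟨(x ^ 2 ^ s - 1) * (2 * c) + 2 * c ^ 2 + 1 - x ^ 2 ^ s, ?_⟩
    rw [pow_succ 2 s, pow_mul, pow_mul, h1]
    ring

variable (E : Type) [Field E] [NumberField E]

lemma exists_odd : ∃ t : ℕ, Odd t ∧
    ∀ w : (𝓞 E)ˣ, ((w : 𝓞 E)) ^ t - 1 ∈ (Ideal.span {((2 : ℕ) : 𝓞 E)}).radical := by
  have hne : Ideal.span {((2 : ℕ) : 𝓞 E)} ≠ ⊥ := by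
    rw [Ne, Ideal.span_singleton_eq_bot]
    exact Nat.cast_ne_zero.2 two_ne_zero
  haveI : Finite (𝓞 E ⧸ Ideal.span {((2 : ℕ) : 𝓞 E)}) := Ideal.finiteQuotientOfFreeOfNeBot _ hne
  obtain ⟨s, t, ht, hst⟩ := Nat.exists_eq_two_pow_mul_odd
    (n := Nat.card (𝓞 E ⧸ Ideal.span {((2 : ℕ) : 𝓞 E)})ˣ) Nat.card_pos.ne'
  refine ⟨t, ht, fun w => ?_⟩
  refine ⟨2 ^ s, ?_⟩
  have h1 : (2 : 𝓞 E) ∣ ((w : 𝓞 E) ^ t) ^ 2 ^ s - 1 := by
    have h := pow_card_eq_one' (G := (𝓞 E ⧸ Ideal.span {((2 : ℕ) : 𝓞 E)})ˣ)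
      (x := Units.map (Ideal.Quotient.mk (Ideal.span {((2 : ℕ) : 𝓞 E)})).toMonoidHom w)
    have h2 := congrArg Units.val h
    have h3 : (w : 𝓞 E) ^ Nat.card (𝓞 E ⧸ Ideal.span {((2 : ℕ) : 𝓞 E)})ˣ - 1 ∈
        Ideal.span {((2 : ℕ) : 𝓞 E)} := by
      rw [← Ideal.Quotient.eq_zero_iff_mem, map_sub, map_pow, map_one, sub_eq_zero]
      exact h2
    rw [hst, Ideal.mem_span_singleton] at h3
    rw [← pow_mul, mul_comm t]
    exact_mod_cast h3
  have h2 := frob ((w : 𝓞 E) ^ t) s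
  rw [Ideal.mem_span_singleton]
  have h3 := dvd_add h2 h1
  have h4 : ((w : 𝓞 E) ^ t - 1) ^ 2 ^ s - (((w : 𝓞 E) ^ t) ^ 2 ^ s - 1) +
      (((w : 𝓞 E) ^ t) ^ 2 ^ s - 1) = ((w : 𝓞 E) ^ t - 1) ^ 2 ^ s := by ring
  rw [h4] at h3
  exact_mod_cast h3

lemma unif (J : ℕ) : ∃ j₀ : ℕ, ∀ j, j₀ ≤ j → ∀ y : 𝓞 E,
    y - 1 ∈ (Ideal.span {((2 : ℕ) : 𝓞 E)}).radical → (2 : 𝓞 E) ^ J ∣ y ^ 2 ^ j - 1 := by
  obtain ⟨a, ha⟩ := Ideal.exists_radical_pow_le_of_fg (Ideal.span {((2 : ℕ) : 𝓞 E)})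
    (IsNoetherian.noetherian _)
  have key : ∀ y : 𝓞 E, y - 1 ∈ (Ideal.span {((2 : ℕ) : 𝓞 E)}).radical → ∀ i : ℕ,
      (2 : 𝓞 E) ^ (i + 1) ∣ y ^ 2 ^ (a + i) - 1 := by
    intro y hy i
    induction i with
    | zero =>
      have h1 : (y - 1) ^ 2 ^ a ∈ Ideal.span {((2 : ℕ) : 𝓞 E)} := by
        have h2 : (y - 1) ^ a ∈ Ideal.span {((2 : ℕ) : 𝓞 E)} := ha (Ideal.pow_mem_pow hy a)
        have h3 : 2 ^ a = a + (2 ^ a - a) := by
          have := (Nat.lt_two_pow_self (n := a)).le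
          omega
        rw [h3, pow_add]
        exact Ideal.mul_mem_right _ _ h2
      rw [Ideal.mem_span_singleton] at h1
      have h1' : (2 : 𝓞 E) ∣ (y - 1) ^ 2 ^ a := by exact_mod_cast h1
      have h2 := frob y a
      have h3 := dvd_sub h1' h2
      have h4 : (y - 1) ^ 2 ^ a - ((y - 1) ^ 2 ^ a - (y ^ 2 ^ a - 1)) = y ^ 2 ^ a - 1 := by ring
      rw [h4] at h3
      simpa using h3
    | succ i ih =>
      have h1 : y ^ 2 ^ (a + (i + 1)) - 1 =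
          (y ^ 2 ^ (a + i) - 1) * ((y ^ 2 ^ (a + i) - 1) + 2) := by
        rw [← add_assoc, pow_succ 2 (a + i), pow_mul]
        ring
      rw [h1, pow_succ]
      refine mul_dvd_mul ih (dvd_add ?_ dvd_rfl)
      exact (dvd_pow_self 2 (Nat.succ_ne_zero i)).trans ih
  refine ⟨a + J, fun j hj y hy => ?_⟩
  have h1 := key y hy (j - a)
  have h2 : a + (j - a) = j := by omega
  rw [h2] at h1
  exact (pow_dvd_pow _ (by omega)).trans h1

lemma not_unit_two : ¬ IsUnit (2 : 𝓞 E) := by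
  intro h
  have h1 : IsUnit (algebraMap ℤ (𝓞 E) 2) := by
    have : algebraMap ℤ (𝓞 E) 2 = 2 := by simp
    rw [this]
    exact h
  have hint : (algebraMap ℤ (𝓞 E)).IsIntegral := fun x => Algebra.IsIntegral.isIntegral x
  haveI : IsLocalHom (algebraMap ℤ (𝓞 E)) :=
    hint.isLocalHom (FaithfulSMul.algebraMap_injective ℤ (𝓞 E))
  have h2 : IsUnit (2 : ℤ) := isUnit_of_map_unit (algebraMap ℤ (𝓞 E)) 2 h1
  rw [Int.isUnit_iff] at h2
  omega

lemma eq_one (z : 𝓞 E) (h : ∀ J : ℕ, (2 : 𝓞 E) ^ J ∣ z - 1) : z = 1 := by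
  by_contra hne
  have h1 : z - 1 ≠ 0 := sub_ne_zero.2 hne
  obtain ⟨n, hn⟩ := FiniteMultiplicity.of_not_isUnit (not_unit_two E) h1
  exact hn (h _)

theorem t_TAT : Pool.Agent.N848.LT.S_TAT := by
  intro E _ _ hleo n
  by_contra hcon
  push Not at hcon
  choose u hu1 hu2 using hcon
  obtain ⟨t0, ht0, ht0w⟩ := exists_odd E
  set t : ℕ := t0 * torsionOrder E with ht
  have htpos : 0 < t := Nat.mul_pos ht0.pos (torsionOrder_pos E)
  -- the family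
  set η : Fin (rank E) → (𝓞 E)ˣ := fun i => fundSystem E i ^ t with hη
  -- pigeonhole
  obtain ⟨ζ, hζ⟩ : ∃ ζ : torsion E, ∃ᶠ M in atTop, tp E (u M) = ζ := by
    by_contra hno
    push Not at hno
    have h1 : ∀ᶠ M in atTop, ∀ ζ : torsion E, tp E (u M) ≠ ζ := eventually_all.2 fun ζ => by
      have := hno ζ
      exact this
    obtain ⟨M, hM⟩ := h1.exists
    exact hM _ rfl
  obtain ⟨ψ, hψ, hψζ⟩ := extraction_of_frequently_atTop hζ
  -- compactness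
  obtain ⟨a, φ', hφ', hlim'⟩ := CompactSpace.tendsto_subseq
    (fun M : ℕ => fun i : Fin (rank E) => ((ex E (u (ψ M)) i : ℤ) : ℤ_[2]))
  set φ : ℕ → ℕ := fun k => ψ (φ' k) with hφdef
  have hφ : StrictMono φ := hψ.comp hφ'
  have hlim : Tendsto (fun k => fun i : Fin (rank E) => ((ex E (u (φ k)) i : ℤ) : ℤ_[2])) atTop
      (𝓝 a) := hlim'
  have hx : ∀ M, u M ^ t = ∏ i, η i ^ ex E (u M) i := by
    intro M
    have h1 : ∏ i, η i ^ ex E (u M) i = (∏ i, fundSystem E i ^ ex E (u M) i) ^ t := by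
      rw [← Finset.prod_pow]
      refine Finset.prod_congr rfl fun i _ => ?_
      show (fundSystem E i ^ t) ^ ex E (u M) i = (fundSystem E i ^ ex E (u M) i) ^ t
      rw [← zpow_natCast, ← zpow_natCast, ← zpow_mul, ← zpow_mul, mul_comm]
    rw [h1]
    conv_lhs => rw [ex_spec E (u M)]
    rw [mul_pow]
    have h2 : ((tp E (u M) : (𝓞 E)ˣ)) ^ t = 1 := by
      rw [ht, mul_comm t0, pow_mul, torsion_pow E _ (tp E (u M)).2, one_pow]
    rw [h2, one_mul]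
  have ha := hleo (rank E) η ?_ ?_ a (fun k i => ex E (u (φ k)) i) ?_ ?_
  · -- conclusion
    rw [ha] at hlim
    have h1 : ∀ j : ℕ, ∀ i, ∀ᶠ k in atTop, ((2 : ℕ) : ℤ) ^ j ∣ ex E (u (φ k)) i := by
      intro j i
      have h2 : Tendsto (fun k => ‖((ex E (u (φ k)) i : ℤ) : ℤ_[2])‖) atTop (𝓝 0) := by
        have h3 := (tendsto_pi_nhds.1 hlim i).norm
        simpa using h3
      have hpos : (0 : ℝ) < ((2 : ℕ) : ℝ) ^ (-(j : ℤ)) := by positivity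
      filter_upwards [h2.eventually_lt_const hpos] with k hk
      have h4 := hk.le
      rw [PadicInt.norm_int_le_pow_iff_dvd] at h4
      exact_mod_cast h4
    -- the form of the units
    have h5 : ∀ j : ℕ, ∀ᶠ k in atTop, ∃ v : (𝓞 E)ˣ, u (φ k) = (ζ : (𝓞 E)ˣ) * v ^ 2 ^ j := by
      intro j
      filter_upwards [eventually_all.2 (h1 j)] with k hk
      choose d hd using hk
      refine ⟨∏ i, fundSystem E i ^ d i, ?_⟩
      conv_lhs => rw [ex_spec E (u (φ k))]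
      have h6 : tp E (u (φ k)) = ζ := hψζ (φ' k)
      rw [h6, ← Finset.prod_pow]
      congr 1
      refine Finset.prod_congr rfl fun i _ => ?_
      rw [hd i, ← zpow_natCast, ← zpow_mul, mul_comm]
      push_cast
      rfl
    -- the torsion part
    have hζ1 : ((ζ : (𝓞 E)ˣ)) ^ t0 = 1 := by
      apply Units.ext
      rw [Units.val_pow_eq_pow_val, Units.val_one]
      apply eq_one E
      intro J
      obtain ⟨j₀, hj₀⟩ := unif E J
      obtain ⟨k, ⟨v, hv⟩, hk⟩ := ((h5 j₀).and (eventually_ge_atTop J)).exists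
      have h7 : (2 : 𝓞 E) ^ J ∣ ((u (φ k) : (𝓞 E)ˣ) : 𝓞 E) ^ t0 - 1 := by
        have h8 : J ≤ φ k := hk.trans (hφ.id_le k)
        have h9 := hu1 (φ k)
        have h10 : (2 : 𝓞 E) ^ J ∣ ((u (φ k) : (𝓞 E)ˣ) : 𝓞 E) - 1 :=
          (pow_dvd_pow _ h8).trans (by exact_mod_cast h9)
        refine h10.trans ?_
        have := sub_dvd_pow_sub_pow ((u (φ k) : (𝓞 E)ˣ) : 𝓞 E) 1 t0
        rwa [one_pow] at this
      have h11 := hj₀ j₀ le_rfl (((v : (𝓞 E)ˣ) : 𝓞 E) ^ t0) (ht0w v)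
      rw [hv] at h7
      have h12 : ((((ζ : (𝓞 E)ˣ) * v ^ 2 ^ j₀ : (𝓞 E)ˣ)) : 𝓞 E) ^ t0 - 1 =
          (((ζ : (𝓞 E)ˣ) : 𝓞 E) ^ t0 - 1) +
            (((ζ : (𝓞 E)ˣ) : 𝓞 E) ^ t0) * ((((v : (𝓞 E)ˣ) : 𝓞 E) ^ t0) ^ 2 ^ j₀ - 1) := by
        rw [Units.val_mul, Units.val_pow_eq_pow_val, mul_pow, ← pow_mul, ← pow_mul,
          mul_comm t0 (2 ^ j₀)]
        ring
      rw [h12] at h7
      exact (dvd_add_left (h11.mul_left _)).1 h7
    obtain ⟨k, v, hv⟩ := (h5 n).exists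
    -- the torsion part is a power
    have hcop : Nat.Coprime (2 ^ n) t0 := Nat.Coprime.pow_left _ (Nat.coprime_two_left.2 ht0)
    have hb := Nat.gcd_eq_gcd_ab (2 ^ n) t0
    rw [Nat.Coprime.gcd_eq_one hcop] at hb
    have hw : ((ζ : (𝓞 E)ˣ) ^ (Nat.gcdA (2 ^ n) t0)) ^ 2 ^ n = (ζ : (𝓞 E)ˣ) := by
      rw [← zpow_natCast, ← zpow_mul]
      have h5 : Nat.gcdA (2 ^ n) t0 * ((2 ^ n : ℕ) : ℤ) =
          1 - (t0 : ℤ) * Nat.gcdB (2 ^ n) t0 := by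
        push_cast at hb ⊢
        linarith
      rw [h5, zpow_sub, zpow_one, zpow_mul, zpow_natCast, hζ1, one_zpow, inv_one, mul_one]
    refine hu2 (φ k) ((ζ : (𝓞 E)ˣ) ^ (Nat.gcdA (2 ^ n) t0) * v) ?_
    rw [mul_pow, hw, hv]
  · -- congruence
    intro i
    have h1 := ht0w (fundSystem E i ^ torsionOrder E)
    have h2 : ((η i : (𝓞 E)ˣ) : 𝓞 E) = (((fundSystem E i ^ torsionOrder E : (𝓞 E)ˣ)) : 𝓞 E) ^ t0 := by
      rw [hη, ← Units.val_pow_eq_pow_val, ← pow_mul, ht, mul_comm]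
    rw [h2]
    exact h1
  · -- independence
    intro c hc
    have h1 : ∀ j, ex E (∏ i, η i ^ c i) j = 0 := by
      intro j
      rw [hc, ex_one]
    funext j
    have h2 := h1 j
    rw [ex_prod] at h2
    simp only [hη, ex_pow, ex_fund] at h2
    simp only [mul_ite, mul_one, mul_zero, Finset.sum_ite_eq', Finset.mem_univ, if_true] at h2
    rcases mul_eq_zero.1 h2 with h3 | h3
    · exact h3
    · exact absurd h3 (by exact_mod_cast htpos.ne')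
  · -- limit
    intro i
    exact tendsto_pi_nhds.1 hlim i
  · -- p-adic convergence
    intro N
    filter_upwards [eventually_ge_atTop N] with k hk
    rw [← hx (φ k)]
    have h1 : N ≤ φ k := hk.trans (hφ.id_le k)
    refine (pow_dvd_pow _ h1).trans ((hu1 (φ k)).trans ?_)
    rw [Units.val_pow_eq_pow_val]
    have := sub_dvd_pow_sub_pow ((u (φ k) : (𝓞 E)ˣ) : 𝓞 E) 1 t
    rwa [one_pow] at this

end Pool.Agent.N371.LT
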